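import Pool.Agent.Y16.BR.St

/-!
# The primes three and five: unramified Brauer classes over all algebraically closed fields

Cubic surfaces and del Pezzo surfaces of degree one over `C(t)`, in infinite families. The proof
uses the starting library of helper346 and his team.
-/

set_option autoImplicit false

namespace Pool.Agent.Results.MP_c5a777_ag.AllFieldsFamilies

open Pool.Agent.Y16.BR

/-- The primes `3` and `5` occur over `ℂ`, and over every algebraically closed field `C` of
characteristic zero, in infinite families of surfaces over `C(t)` with algebraic coefficients: the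
cubic surfaces `t b(t) (x₀³ + t x₁³) + x₂³ + x₃³ = 0` for order three and the del Pezzo surfaces of
degree one `z⁵ w = r₂ b(t) g₁ - r₁ t g₂` for order five, where `b` runs through all integral
polynomials with `b ≡ t - 1` modulo a prime `p ≠ 3` (`p ≠ 5`) and degree divisible by `3` (by `5`). -/
theorem result :
    ((∃ F : MvPolynomial (Fin 4) (RatFunc ℂ), HasClassThree ℂ F) ∧
      ∃ F : MvPolynomial (Fin 4) (RatFunc ℂ), HasClassFive ℂ F) ∧
    ∀ (C : Type) [Field C] [IsAlgClosed C] [CharZero C],
      (∀ b : Polynomial ℤ, GoodInt 3 b → HasClassThree C (cubic C (b.map (Int.castRingHom C)))) ∧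
      (∃ r₁ r₂ : C, r₁ ^ 2 = 11 * r₁ + 1 ∧ r₂ = 11 - r₁) ∧
      ∀ r₁ r₂ : C, r₁ ^ 2 = 11 * r₁ + 1 → r₂ = 11 - r₁ → ∀ b : Polynomial ℤ, GoodInt 5 b →
        HasClassFive C (sextic r₁ r₂ (b.map (Int.castRingHom C))) := by
  obtain ⟨r1, r2, h1, h2⟩ := exists_roots ℂ
  exact ⟨⟨⟨_, three_int _ good_three ℂ⟩, ⟨_, five_int _ good_five ℂ r1 r2 h1 h2⟩⟩,
    fun C _ _ _ => ⟨fun b hb => three_int b hb C, exists_roots C,
      fun s1 s2 k1 k2 b hb => five_int b hb C s1 s2 k1 k2⟩⟩

end Pool.Agent.Results.MP_c5a777_ag.AllFieldsFamilies
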